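import Pool.Agent.Lib.QU53.R1

/-!
Row M1 (helper74).  If every finitely generated projective module over the ring of Laurent series
`C⟦x⟧[1/x]` over a local domain `C` is free, then every finitely generated projective module over
`C[X]` is free (local Horrocks theorem, with `X` corresponding to `1/x`).
-/

set_option autoImplicit false

namespace Pool.Agent.QU74

open Polynomial Pool.Agent.QU53

universe u

section approx

variable (C : Type u) [CommRing C]

/-- the Laurent series over `C` -/
abbrev LL : Type u := Localization.Away (PowerSeries.X : PowerSeries C)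

/-- the inclusion of the power series -/
noncomputable abbrev jj : PowerSeries C →+* LL C := algebraMap (PowerSeries C) (LL C)

/-- the variable -/
noncomputable def xx : LL C := jj C PowerSeries.X

/-- the inverse of the variable -/
noncomputable def ww : LL C := IsLocalization.Away.invSelf (PowerSeries.X : PowerSeries C)

lemma x_mul_w : xx C * ww C = 1 := IsLocalization.Away.mul_invSelf _

lemma w_mul_x : ww C * xx C = 1 := by rw [mul_comm, x_mul_w]

lemma w_pow_mul_x_pow (n : ℕ) : ww C ^ n * xx C ^ n = 1 := by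
  rw [← mul_pow, w_mul_x, one_pow]

/-- the polynomials in the inverse of the variable -/
noncomputable def io : C[X] →+* LL C :=
  Polynomial.eval₂RingHom ((jj C).comp (PowerSeries.C : C →+* PowerSeries C)) (ww C)

lemma io_C (c : C) : io C (Polynomial.C c) = jj C (PowerSeries.C c) := by
  simp [io]

lemma io_X : io C Polynomial.X = ww C := by
  simp [io]

variable {C}

lemma io_reflect (N : ℕ) (p : C[X]) (hp : p.natDegree ≤ N) :
    io C (reflect N p) * xx C ^ N = jj C (p : PowerSeries C) := by
  refine Polynomial.induction_with_natDegree_le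
    (fun p => io C (reflect N p) * xx C ^ N = jj C (p : PowerSeries C)) N ?_ ?_ ?_ p hp
  · simp
  · intro n r _ hn
    rw [reflect_C_mul_X_pow, revAt_le hn, map_mul, map_pow, io_C, io_X, Polynomial.coe_mul,
      Polynomial.coe_pow, Polynomial.coe_C, Polynomial.coe_X, map_mul, map_pow, mul_assoc]
    congr 1
    have h1 : N = (N - n) + n := (Nat.sub_add_cancel hn).symm
    conv_lhs => rw [show xx C ^ N = xx C ^ (N - n) * xx C ^ n by rw [← pow_add, ← h1]]
    rw [← mul_assoc, w_pow_mul_x_pow, one_mul]
    rfl
  · intro f g _ _ hf hg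
    rw [reflect_add, map_add, add_mul, hf, hg, Polynomial.coe_add, map_add]

lemma reflect_reflect' (N : ℕ) (p : C[X]) : reflect N (reflect N p) = p := by
  ext i
  rw [coeff_reflect, coeff_reflect, revAt_invol]

lemma natDegree_reflect_le' (N : ℕ) (p : C[X]) (hp : p.natDegree ≤ N) :
    (reflect N p).natDegree ≤ N := by
  rw [natDegree_le_iff_coeff_eq_zero]
  intro i hi
  rw [coeff_reflect, revAt_eq_self_of_lt hi]
  exact coeff_eq_zero_of_natDegree_lt (lt_of_le_of_lt hp hi)

lemma io_eq (N : ℕ) (p : C[X]) (hp : p.natDegree ≤ N) :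
    io C p * xx C ^ N = jj C ((reflect N p : C[X]) : PowerSeries C) := by
  have h := io_reflect N (reflect N p) (natDegree_reflect_le' N p hp)
  rwa [reflect_reflect'] at h

variable [IsDomain C]

lemma jj_inj : Function.Injective (jj C) :=
  IsLocalization.injective (LL C)
    (powers_le_nonZeroDivisors_of_noZeroDivisors PowerSeries.X_ne_zero)

instance : IsDomain (LL C) :=
  IsLocalization.isDomain_localization
    (powers_le_nonZeroDivisors_of_noZeroDivisors (PowerSeries.X_ne_zero (R := C)))

lemma io_inj : Function.Injective (io C) := by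
  rw [injective_iff_map_eq_zero]
  intro p hp
  have h := io_eq p.natDegree p le_rfl
  rw [hp, zero_mul] at h
  have h1 : ((reflect p.natDegree p : C[X]) : PowerSeries C) = 0 := by
    apply jj_inj
    rw [← h, map_zero]
  have h2 : reflect p.natDegree p = 0 := by
    apply Polynomial.coe_injective
    rw [h1, Polynomial.coe_zero]
  have h3 := congrArg (reflect p.natDegree) h2
  rw [reflect_reflect'] at h3
  rw [h3]
  simp

omit [IsDomain C] in
lemma exists_den (l : LL C) : ∃ m0 : ℕ, ∀ m, m0 ≤ m → ∃ f : PowerSeries C,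
    xx C ^ m * l = jj C f := by
  obtain ⟨n, f, hf⟩ := IsLocalization.Away.surj (PowerSeries.X : PowerSeries C) l
  refine ⟨n, fun m hm => ⟨PowerSeries.X ^ (m - n) * f, ?_⟩⟩
  rw [map_mul, map_pow, ← hf]
  have h1 : m = (m - n) + n := (Nat.sub_add_cancel hm).symm
  conv_lhs => rw [show xx C ^ m = xx C ^ (m - n) * xx C ^ n by rw [← pow_add, ← h1]]
  rw [mul_assoc, mul_comm (xx C ^ n) l]
  rfl

/-- every Laurent series is a polynomial in `1/x` plus a power series -/
lemma exists_approx (l : LL C) : ∃ (q : C[X]) (g : PowerSeries C), io C q = l + jj C g := by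
  obtain ⟨n, hn⟩ := exists_den l
  obtain ⟨f, hf⟩ := hn n le_rfl
  obtain ⟨g, hg⟩ : ∃ g : PowerSeries C, (PowerSeries.trunc (n + 1) f : PowerSeries C)
      = f + PowerSeries.X ^ n * g := by
    have h1 : (PowerSeries.X : PowerSeries C) ^ n ∣
        ((PowerSeries.trunc (n + 1) f : C[X]) : PowerSeries C) - f := by
      rw [PowerSeries.X_pow_dvd_iff]
      intro m hm
      rw [map_sub, Polynomial.coeff_coe, PowerSeries.coeff_trunc, if_pos (by omega), sub_self]
    obtain ⟨g, hg⟩ := h1
    exact ⟨g, by rw [← hg]; ring⟩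
  refine ⟨reflect n (PowerSeries.trunc (n + 1) f), g, ?_⟩
  have h2 := io_reflect n (PowerSeries.trunc (n + 1) f)
    (Nat.lt_succ_iff.1 (PowerSeries.natDegree_trunc_lt f n))
  have h3 : (xx C) ^ n ≠ 0 := by
    intro h0
    have := w_pow_mul_x_pow C n
    rw [h0, mul_zero] at this
    exact zero_ne_one this
  apply mul_right_cancel₀ h3
  rw [h2, hg, map_add, ← hf, map_mul, map_pow, add_mul]
  rw [mul_comm l, mul_comm (jj C g)]
  rfl

/-- a polynomial whose leading term in `1/x` is `1` -/
lemma monic_of {H : C[X]} (m : ℕ) (f : PowerSeries C) (hf : PowerSeries.constantCoeff f = 1)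
    (h : io C H = ww C ^ m * jj C f) : H.Monic := by
  set N := max H.natDegree m with hN
  have h1 := io_eq N H (le_max_left _ _)
  have hm : N = (N - m) + m := (Nat.sub_add_cancel (le_max_right _ _)).symm
  have h2 : jj C ((reflect N H : C[X]) : PowerSeries C) = jj C (PowerSeries.X ^ (N - m) * f) := by
    rw [← h1, h, map_mul, map_pow]
    conv_lhs => rw [show xx C ^ N = xx C ^ (N - m) * xx C ^ m by rw [← pow_add, ← hm]]
    calc ww C ^ m * jj C f * (xx C ^ (N - m) * xx C ^ m)
        = (ww C ^ m * xx C ^ m) * (xx C ^ (N - m) * jj C f) := by ring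
      _ = _ := by rw [w_pow_mul_x_pow, one_mul]; rfl
  have h3 := jj_inj h2
  have h4 : ∀ i, (reflect N H).coeff i = PowerSeries.coeff i (PowerSeries.X ^ (N - m) * f) := by
    intro i
    rw [← h3, Polynomial.coeff_coe]
  have h5 : H.coeff m = 1 := by
    have h6 := h4 (N - m)
    rw [coeff_reflect, revAt_le (Nat.sub_le _ _)] at h6
    have h7 : N - (N - m) = m := by omega
    rw [h7, PowerSeries.coeff_X_pow_mul', if_pos le_rfl, Nat.sub_self] at h6
    rw [h6, PowerSeries.coeff_zero_eq_constantCoeff_apply, hf]
  have h8 : H.natDegree ≤ m := by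
    rw [natDegree_le_iff_coeff_eq_zero]
    intro i hi
    by_cases hiN : i ≤ N
    · have h6 := h4 (N - i)
      rw [coeff_reflect, revAt_le (Nat.sub_le _ _)] at h6
      have h7 : N - (N - i) = i := by omega
      rw [h7, PowerSeries.coeff_X_pow_mul', if_neg (by omega)] at h6
      exact h6
    · exact coeff_eq_zero_of_natDegree_lt (lt_of_le_of_lt (le_max_left _ _) (not_le.1 hiN))
  exact monic_of_natDegree_le_of_coeff_eq_one m h8 h5

section mat

variable {a b : Type} [Fintype a] [Fintype b]

omit [IsDomain C] in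
lemma exists_den_mat (M : Matrix a b (LL C)) : ∃ m0 : ℕ, ∀ m, m0 ≤ m →
    ∃ F : Matrix a b (PowerSeries C), xx C ^ m • M = F.map (jj C) := by
  choose m0 hm0 using fun i j => exists_den (M i j)
  refine ⟨Finset.univ.sup (fun p : a × b => m0 p.1 p.2), fun m hm => ?_⟩
  have h1 : ∀ i j, ∃ f : PowerSeries C, xx C ^ m * M i j = jj C f := fun i j =>
    hm0 i j m (le_trans (Finset.le_sup (f := fun p : a × b => m0 p.1 p.2)
      (Finset.mem_univ (i, j))) hm)
  choose F hF using h1
  exact ⟨F, by ext i j; exact hF i j⟩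

omit [Fintype a] [Fintype b] in
lemma exists_approx_mat (M : Matrix a b (LL C)) :
    ∃ (Q : Matrix a b C[X]) (G : Matrix a b (PowerSeries C)),
      Q.map (io C) = M + G.map (jj C) := by
  choose Q G h using fun i j => exists_approx (M i j)
  exact ⟨Q, G, by ext i j; exact h i j⟩

end mat

end approx

section split

variable {L : Type u} [CommRing L] [Nontrivial L]

/-- an idempotent matrix with free range splits -/
lemma split_idem (hL : PF L) {n : ℕ} (E : Matrix (Fin n) (Fin n) L) (hE : E * E = E) :
    ∃ (k : ℕ) (V : Matrix (Fin n) (Fin k) L) (U : Matrix (Fin k) (Fin n) L),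
      U * V = 1 ∧ V * U = E := by
  classical
  set T : (Fin n → L) →ₗ[L] (Fin n → L) := Matrix.toLin' E with hT
  have hTT : T ∘ₗ T = T := by
    rw [hT, ← Matrix.toLin'_mul, hE]
  have hfin : Module.Finite L (LinearMap.range T) := inferInstance
  have hsplit : T.rangeRestrict ∘ₗ (LinearMap.range T).subtype = LinearMap.id := by
    ext1 ⟨y, hy⟩
    obtain ⟨v, rfl⟩ := hy
    apply Subtype.ext
    exact LinearMap.congr_fun hTT v
  have hproj : Module.Projective L (LinearMap.range T) :=
    Module.Projective.of_split (LinearMap.range T).subtype T.rangeRestrict hsplit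
  have hfree : Module.Free L (LinearMap.range T) := hL _ hfin hproj
  let β := Module.finBasis L (LinearMap.range T)
  refine ⟨_, LinearMap.toMatrix' ((LinearMap.range T).subtype ∘ₗ β.equivFun.symm.toLinearMap),
    LinearMap.toMatrix' (β.equivFun.toLinearMap ∘ₗ T.rangeRestrict), ?_, ?_⟩
  · rw [← LinearMap.toMatrix'_comp]
    have h1 : (β.equivFun.toLinearMap ∘ₗ T.rangeRestrict) ∘ₗ
        ((LinearMap.range T).subtype ∘ₗ β.equivFun.symm.toLinearMap) = LinearMap.id := by
      rw [LinearMap.comp_assoc, ← LinearMap.comp_assoc _ _ T.rangeRestrict, hsplit]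
      ext1 i
      simp
    rw [h1, LinearMap.toMatrix'_id]
  · rw [← LinearMap.toMatrix'_comp]
    have h1 : ((LinearMap.range T).subtype ∘ₗ β.equivFun.symm.toLinearMap) ∘ₗ
        (β.equivFun.toLinearMap ∘ₗ T.rangeRestrict) = T := by
      refine LinearMap.ext fun v => ?_
      simp
    rw [h1, hT, LinearMap.toMatrix'_toLin']

end split

section main

variable {C : Type u} [CommRing C] [IsDomain C]

/-- the matrix computation: a splitting over the Laurent series gives matrices over the
polynomial ring with a monic determinant -/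
lemma exists_matrices {n k : ℕ} (E : Matrix (Fin n) (Fin n) C[X])
    (V : Matrix (Fin n) (Fin k) (LL C)) (U : Matrix (Fin k) (Fin n) (LL C))
    (hUV : U * V = 1) (hVU : V * U = E.map (io C)) :
    ∃ (Q : Matrix (Fin n) (Fin k) C[X]) (R : Matrix (Fin k) (Fin n) C[X]),
      (R * E * Q).det.Monic ∧
      (E * Q) * (R * E * Q).adjugate * (R * E) = (R * E * Q).det • E := by
  classical
  obtain ⟨m1, hm1⟩ := exists_den_mat V
  obtain ⟨m2, hm2⟩ := exists_den_mat U
  obtain ⟨m3, hm3⟩ := exists_den_mat (E.map (io C))
  set m := max m1 (max m2 m3) with hm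
  obtain ⟨FV, hFV⟩ := hm1 m (le_max_left _ _)
  obtain ⟨FU, hFU⟩ := hm2 m (le_trans (le_max_left _ _) (le_max_right _ _))
  obtain ⟨FE, hFE⟩ := hm3 m (le_trans (le_max_right _ _) (le_max_right _ _))
  obtain ⟨Q, G2, hQ⟩ := exists_approx_mat (ww C ^ (m + 1) • V)
  obtain ⟨R, G1, hR⟩ := exists_approx_mat (ww C ^ (m + 1) • U)
  refine ⟨Q, R, ?_, ?_⟩
  · have hEV : E.map (io C) * V = V := by
      rw [← hVU, Matrix.mul_assoc, hUV, Matrix.mul_one]
    have hUE : U * E.map (io C) = U := by
      rw [← hVU, ← Matrix.mul_assoc, hUV, Matrix.one_mul]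
    have hw : ww C ^ (m + 1) * xx C ^ (m + 1) = 1 := w_pow_mul_x_pow C _
    have hD : (R * E * Q).map (io C) = ww C ^ (2 * (m + 1)) •
        ((1 + (PowerSeries.X : PowerSeries C) • (G1 * FV + FU * G2 +
          (PowerSeries.X : PowerSeries C) ^ (m + 1) • (G1 * FE * G2)) :
          Matrix (Fin k) (Fin k) (PowerSeries C)).map (jj C)) := by
      have hQ' : Q.map (io C) = ww C ^ (m + 1) • (V + xx C ^ (m + 1) • G2.map (jj C)) := by
        rw [hQ, smul_add, smul_smul, hw, one_smul]
      have hR' : R.map (io C) = ww C ^ (m + 1) • (U + xx C ^ (m + 1) • G1.map (jj C)) := by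
        rw [hR, smul_add, smul_smul, hw, one_smul]
      rw [Matrix.map_mul, Matrix.map_mul, hQ', hR', Matrix.smul_mul, Matrix.smul_mul,
        Matrix.mul_smul, smul_smul, ← pow_add, ← two_mul]
      congr 1
      have hX : ∀ (a b : ℕ) (M : Matrix (Fin a) (Fin b) (PowerSeries C)),
          ((PowerSeries.X : PowerSeries C) • M).map (jj C) = xx C • M.map (jj C) := by
        intro a b M
        ext i j
        simp [xx]
      have hXm : ∀ (a b : ℕ) (M : Matrix (Fin a) (Fin b) (PowerSeries C)),
          ((PowerSeries.X : PowerSeries C) ^ (m + 1) • M).map (jj C)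
            = xx C ^ (m + 1) • M.map (jj C) := by
        intro a b M
        ext i j
        simp [xx]
      have h1 : ((1 : Matrix (Fin k) (Fin k) (PowerSeries C))).map (jj C) = 1 :=
        Matrix.map_one _ (map_zero _) (map_one _)
      rw [Matrix.map_add _ (map_add _), h1, hX, Matrix.map_add _ (map_add _),
        Matrix.map_add _ (map_add _), hXm, Matrix.map_mul, Matrix.map_mul, Matrix.map_mul,
        Matrix.map_mul, ← hFV, ← hFU, ← hFE, Matrix.add_mul, Matrix.add_mul, Matrix.mul_add,
        Matrix.mul_add, hUE, hUV]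
      simp only [Matrix.smul_mul, Matrix.mul_smul, smul_smul, smul_add, Matrix.mul_assoc, hEV,
        ← pow_succ']
      have h5 : xx C * (xx C ^ (m + 1) * xx C ^ m) = xx C ^ (m + 1) * xx C ^ (m + 1) := by ring
      rw [h5]
      abel
    have hdet : io C (R * E * Q).det = (ww C ^ (2 * (m + 1))) ^ k * jj C
        ((1 + (PowerSeries.X : PowerSeries C) • (G1 * FV + FU * G2 +
          (PowerSeries.X : PowerSeries C) ^ (m + 1) • (G1 * FE * G2)) :
          Matrix (Fin k) (Fin k) (PowerSeries C)).det) := by
      rw [RingHom.map_det, RingHom.map_det, RingHom.mapMatrix_apply, RingHom.mapMatrix_apply, hD,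
        Matrix.det_smul, Fintype.card_fin]
    refine monic_of (2 * (m + 1) * k) _ ?_ (by rw [hdet, ← pow_mul])
    rw [RingHom.map_det, RingHom.mapMatrix_apply]
    have h1 : ((1 + (PowerSeries.X : PowerSeries C) • (G1 * FV + FU * G2 +
        (PowerSeries.X : PowerSeries C) ^ (m + 1) • (G1 * FE * G2)) :
          Matrix (Fin k) (Fin k) (PowerSeries C)).map (PowerSeries.constantCoeff (R := C))) = 1 := by
      ext i j
      simp [Matrix.one_apply]
    rw [h1, Matrix.det_one]
  · have hinj : Function.Injective (fun M : Matrix (Fin n) (Fin n) C[X] => M.map (io C)) :=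
      Matrix.map_injective (io_inj (C := C))
    apply hinj
    have hEQ : (E * Q).map (io C) = V * (U * Q.map (io C)) := by
      rw [Matrix.map_mul, ← hVU, Matrix.mul_assoc]
    have hRE : (R * E).map (io C) = (R.map (io C) * V) * U := by
      rw [Matrix.map_mul, ← hVU, Matrix.mul_assoc]
    have hREQ : (R * E * Q).map (io C) = (R.map (io C) * V) * (U * Q.map (io C)) := by
      rw [Matrix.map_mul, hRE, Matrix.mul_assoc]
    have hadj : ((R * E * Q).adjugate).map (io C) =
        (U * Q.map (io C)).adjugate * (R.map (io C) * V).adjugate := by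
      rw [← RingHom.mapMatrix_apply, RingHom.map_adjugate, RingHom.mapMatrix_apply, hREQ,
        Matrix.adjugate_mul_distrib]
    have hdet : io C (R * E * Q).det = (R.map (io C) * V).det * (U * Q.map (io C)).det := by
      rw [RingHom.map_det, RingHom.mapMatrix_apply, hREQ, Matrix.det_mul]
    have hsm : ((R * E * Q).det • E).map (io C) = io C (R * E * Q).det • (E.map (io C)) := by
      ext i j
      simp
    change ((E * Q) * (R * E * Q).adjugate * (R * E)).map (io C) = _
    rw [Matrix.map_mul, Matrix.map_mul, hEQ, hRE, hadj]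
    change _ = ((R * E * Q).det • E).map (io C)
    rw [hsm, hdet, ← hVU]
    calc V * (U * Q.map (io C)) * ((U * Q.map (io C)).adjugate * (R.map (io C) * V).adjugate) *
          (R.map (io C) * V * U)
        = V * ((U * Q.map (io C)) * (U * Q.map (io C)).adjugate) *
          ((R.map (io C) * V).adjugate * (R.map (io C) * V)) * U := by
            simp only [Matrix.mul_assoc]
      _ = _ := by
            rw [Matrix.mul_adjugate, Matrix.adjugate_mul, Matrix.mul_smul, Matrix.mul_one,
              Matrix.mul_smul, Matrix.mul_one, smul_smul, Matrix.smul_mul]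

theorem bq_of_laurent [IsLocalRing C]
    (h : PF (Localization.Away (PowerSeries.X : PowerSeries C))) : PF (Polynomial C) := by
  classical
  intro P _ _ hfin hproj
  obtain ⟨n, π, hπ⟩ := Module.Finite.exists_fin' C[X] P
  obtain ⟨s, hs⟩ := Module.projective_lifting_property π LinearMap.id hπ
  set E : Matrix (Fin n) (Fin n) C[X] := LinearMap.toMatrix' (s ∘ₗ π) with hEdef
  have hE : E * E = E := by
    rw [hEdef, ← LinearMap.toMatrix'_comp]
    congr 1
    rw [LinearMap.comp_assoc, ← LinearMap.comp_assoc _ _ π, hs, LinearMap.id_comp]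
  obtain ⟨k, V, U, hUV, hVU⟩ := split_idem (L := LL C) h (E.map (io C)) (by
    rw [← Matrix.map_mul, hE])
  obtain ⟨Q, R, hmon, hid⟩ := exists_matrices E V U hUV hVU
  have hEmul : ∀ v, E.mulVec v = s (π v) := fun v => by
    rw [hEdef, ← Matrix.toLin'_apply, Matrix.toLin'_toMatrix', LinearMap.comp_apply]
  have hps : ∀ p, π (s p) = p := fun p => LinearMap.congr_fun hs p
  have hQ : ∀ c : Fin k → C[X], π (Q.mulVec c) = ∑ i, c i • π (Q.transpose i) := by
    intro c
    rw [Matrix.mulVec_eq_sum, map_sum]
    refine Finset.sum_congr rfl fun i _ => ?_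
    rw [← map_smul]
    congr 1
    ext t
    simp [mul_comm]
  refine horrocks k P (R * E * Q).det hmon ⟨fun i => π (Q.transpose i), ?_, ?_⟩
  · rw [Fintype.linearIndependent_iff]
    intro c hc
    have h1 : (R * E * Q).mulVec c = 0 := by
      rw [← Matrix.mulVec_mulVec, ← Matrix.mulVec_mulVec, hEmul, hQ, hc, map_zero,
        Matrix.mulVec_zero]
    have h2 := Matrix.eq_zero_of_mulVec_eq_zero hmon.ne_zero h1
    intro i
    rw [h2]
    rfl
  · intro p
    have h1 : π (((R * E * Q).det • E).mulVec (s p)) = (R * E * Q).det • p := by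
      rw [Matrix.smul_mulVec, map_smul, hEmul, hps, hps]
    rw [← h1, ← hid, ← Matrix.mulVec_mulVec, ← Matrix.mulVec_mulVec, ← Matrix.mulVec_mulVec, hEmul,
      hps, hQ]
    exact Submodule.sum_mem _ fun i _ => Submodule.smul_mem _ _ (Submodule.subset_span ⟨i, rfl⟩)

end main

end Pool.Agent.QU74
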