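import Pool.Agent.Lib.QU53.Main3
import Pool.Agent.Lib.MP_3e5078_h74.BqLaurent

/-!
Row M2 (helper74).  Finite projective modules over the Laurent series
`S⟦z⟧⟦u_1, …, u_n⟧⟦x⟧[1/x]` over a complete regular local ring `S` of dimension at most two
are free: exchange the variables and apply the theorem for the base `S⟦x⟧` of dimension three.
-/

set_option autoImplicit false

namespace Pool.Agent.QU74

open IsLocalRing Pool.Agent.QU53

universe u

section swap

variable {σ τ : Type} [DecidableEq σ] [DecidableEq τ] (R : Type u) [CommRing R]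

/-- exchange of two blocks of variables -/
noncomputable def swapHom : MvPowerSeries σ (MvPowerSeries τ R) →+*
    MvPowerSeries τ (MvPowerSeries σ R) where
  toFun f := fun b a => f a b
  map_one' := by
    funext b a
    change (MvPowerSeries.coeff b (MvPowerSeries.coeff a (1 : MvPowerSeries σ (MvPowerSeries τ R))))
      = (MvPowerSeries.coeff a (MvPowerSeries.coeff b (1 : MvPowerSeries τ (MvPowerSeries σ R))))
    rw [MvPowerSeries.coeff_one, MvPowerSeries.coeff_one]
    split_ifs with h1 h2 h2
    · rw [MvPowerSeries.coeff_one, MvPowerSeries.coeff_one, if_pos h1, if_pos h2]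
    · rw [MvPowerSeries.coeff_one, if_neg h2, map_zero]
    · rw [MvPowerSeries.coeff_one, if_neg h1, map_zero]
    · rw [map_zero, map_zero]
  map_zero' := rfl
  map_add' _ _ := rfl
  map_mul' f g := by
    funext b a
    change (MvPowerSeries.coeff b (MvPowerSeries.coeff a (f * g))) =
      MvPowerSeries.coeff a (MvPowerSeries.coeff b
        ((show MvPowerSeries τ (MvPowerSeries σ R) from fun b a => f a b) *
          (show MvPowerSeries τ (MvPowerSeries σ R) from fun b a => g a b)))
    rw [MvPowerSeries.coeff_mul, MvPowerSeries.coeff_mul, map_sum, map_sum]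
    simp only [MvPowerSeries.coeff_mul]
    rw [Finset.sum_comm]
    rfl

/-- exchange of two blocks of variables -/
noncomputable def swapEquiv : MvPowerSeries σ (MvPowerSeries τ R) ≃+*
    MvPowerSeries τ (MvPowerSeries σ R) :=
  RingEquiv.ofRingHom (swapHom R) (swapHom R) (by ext; rfl) (by ext; rfl)

lemma swapEquiv_X (s : σ) : swapEquiv (σ := σ) (τ := τ) R (MvPowerSeries.X s) =
    MvPowerSeries.C (MvPowerSeries.X s) := by
  ext b a
  change MvPowerSeries.coeff b (MvPowerSeries.coeff a
    (MvPowerSeries.X s : MvPowerSeries σ (MvPowerSeries τ R))) = _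
  rw [MvPowerSeries.coeff_X, MvPowerSeries.coeff_C]
  split_ifs with h1 h2 h2
  · rw [MvPowerSeries.coeff_one, if_pos h2, MvPowerSeries.coeff_X, if_pos h1]
  · rw [MvPowerSeries.coeff_one, if_neg h2, map_zero]
  · rw [map_zero, MvPowerSeries.coeff_X, if_neg h1]
  · rw [map_zero, map_zero]

/-- a ring isomorphism on the coefficients -/
noncomputable def psMapEquiv {A B : Type u} [CommRing A] [CommRing B] (e : A ≃+* B) :
    PowerSeries A ≃+* PowerSeries B :=
  RingEquiv.ofRingHom (PowerSeries.map (e : A →+* B)) (PowerSeries.map (e.symm : B →+* A))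
    (by ext; simp) (by ext; simp)

lemma psMapEquiv_X {A B : Type u} [CommRing A] [CommRing B] (e : A ≃+* B) :
    psMapEquiv e PowerSeries.X = PowerSeries.X := PowerSeries.map_X (e : A →+* B)

end swap

section reg

variable (S : Type u) [CommRing S]

/-- exchange of variables: `S⟦z⟧⟦u⟧⟦x⟧ = S⟦x⟧⟦z, u⟧` -/
noncomputable def bigSwap (n : ℕ) : PowerSeries (MvPowerSeries (Fin n) (PowerSeries S)) ≃+*
    MvPowerSeries (Fin (n + 1)) (PowerSeries S) :=
  ((psMapEquiv (swapEquiv (σ := Fin n) (τ := Unit) S)).trans
    (psMapEquiv (MvPowerSeries.finSuccEquiv S n).toRingEquiv.symm)).trans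
    (swapEquiv (σ := Unit) (τ := Fin (n + 1)) S)

lemma bigSwap_X (n : ℕ) : bigSwap S n PowerSeries.X = MvPowerSeries.C PowerSeries.X := by
  change (swapEquiv (σ := Unit) (τ := Fin (n + 1)) S)
    (psMapEquiv (MvPowerSeries.finSuccEquiv S n).toRingEquiv.symm
      (psMapEquiv (swapEquiv (σ := Fin n) (τ := Unit) S) PowerSeries.X)) = _
  rw [psMapEquiv_X, psMapEquiv_X]
  exact swapEquiv_X S ()

variable [IsRegularLocalRing S]

lemma spanFinrank_max_powerSeries : (maximalIdeal (PowerSeries S)).spanFinrank ≤
    (maximalIdeal S).spanFinrank + 1 := by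
  classical
  have hfg : (maximalIdeal S).FG := IsNoetherian.noetherian _
  have h1 : ((maximalIdeal S).map (PowerSeries.C : S →+* PowerSeries S)).spanFinrank ≤
      (maximalIdeal S).spanFinrank := Ideal.spanFinrank_map_le_of_fg _ hfg
  have hfg2 : ((maximalIdeal S).map (PowerSeries.C : S →+* PowerSeries S)).FG := hfg.map _
  set I := (maximalIdeal S).map (PowerSeries.C : S →+* PowerSeries S) with hI
  have h2 : (maximalIdeal (PowerSeries S)) =
      Submodule.span (PowerSeries S) (insert PowerSeries.X (Submodule.generators I)) := by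
    rw [Submodule.span_insert, Submodule.span_generators, max8, J8, sup_comm]
  rw [h2]
  refine (Submodule.spanFinrank_span_le_ncard_of_finite
    ((Submodule.FG.finite_generators hfg2).insert _)).trans ?_
  refine (Set.ncard_insert_le _ _).trans ?_
  rw [Submodule.FG.generators_ncard hfg2]
  omega

theorem regular_powerSeries : IsRegularLocalRing (PowerSeries S) ∧
    ringKrullDim (PowerSeries S) = ringKrullDim S + 1 := by
  have h1 := spanFinrank_max_powerSeries S
  have h2 : ringKrullDim S = ((maximalIdeal S).spanFinrank : WithBot ℕ∞) :=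
    IsRegularLocalRing.spanFinrank_maximalIdeal.symm
  have h3 := ringKrullDim_succ_le_ringKrullDim_powerseries (R := S)
  have h4 : ((maximalIdeal (PowerSeries S)).spanFinrank : WithBot ℕ∞) ≤ ringKrullDim S + 1 := by
    rw [h2]
    exact_mod_cast h1
  refine ⟨IsRegularLocalRing.of_spanFinrank_maximalIdeal_le _ (h4.trans h3), ?_⟩
  exact le_antisymm ((ringKrullDim_le_spanFinrank_maximalIdeal _).trans h4) h3

/-- Row M2. -/
theorem pf_laurent_base [IsAdicComplete (maximalIdeal S) S] (hd : ringKrullDim S ≤ 2) (n : ℕ) :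
    PF (Localization.Away
      (PowerSeries.X : PowerSeries (MvPowerSeries (Fin n) (PowerSeries S)))) := by
  obtain ⟨h1, h2⟩ := regular_powerSeries S
  have h3 : IsAdicComplete (maximalIdeal (PowerSeries S)) (PowerSeries S) := adicMax8
  have hd3 : ringKrullDim (PowerSeries S) ≤ 3 := by
    rw [h2]
    calc ringKrullDim S + 1 ≤ 2 + 1 := by gcongr
      _ = 3 := by norm_num
  have hX : (PowerSeries.X : PowerSeries S) ∈ maximalIdeal (PowerSeries S) := by
    rw [max8]
    exact Ideal.mem_sup_right (Ideal.mem_span_singleton_self _)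
  have hX2 : (PowerSeries.X : PowerSeries S) ∉ maximalIdeal (PowerSeries S) ^ 2 := by
    rw [max8, J8_pow]
    intro h
    have h4 := h 1
    rw [PowerSeries.coeff_one_X, show 2 - 1 = 1 by norm_num, pow_one] at h4
    exact (maximalIdeal.isMaximal S).ne_top ((Ideal.eq_top_iff_one _).2 h4)
  have h5 := three_dim_all hd3 (n + 1) _ hX hX2
  have h6 : (Submonoid.powers
      (PowerSeries.X : PowerSeries (MvPowerSeries (Fin n) (PowerSeries S)))).map
      ((bigSwap S n).toMonoidHom) = Submonoid.powers
        (MvPowerSeries.C PowerSeries.X : MvPowerSeries (Fin (n + 1)) (PowerSeries S)) := by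
    rw [Submonoid.map_powers]
    congr 1
    exact bigSwap_X S n
  exact PF_congr (IsLocalization.ringEquivOfRingEquiv _ _ (bigSwap S n) h6) h5

/-- Row M1 and row M2. -/
theorem pf_polynomial_base [IsAdicComplete (maximalIdeal S) S] (hd : ringKrullDim S ≤ 2) (n : ℕ) :
    PF (Polynomial (MvPowerSeries (Fin n) (PowerSeries S))) := by
  have hdom : IsDomain S :=
    BEH5.Reg.isDomain_of_regular _ S IsRegularLocalRing.spanFinrank_maximalIdeal.symm
  have hdom2 : IsDomain (PowerSeries S) := inferInstance
  have hdom3 : IsDomain (MvPowerSeries (Fin n) (PowerSeries S)) := NoZeroDivisors.to_isDomain _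
  exact bq_of_laurent (pf_laurent_base S hd n)

end reg

end Pool.Agent.QU74
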